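import Pool.Agent.Lib.helper10.Strip

namespace Pool.Agent.Results.MP_cb2135_lc.NPHard

open Pool.Agent.Cx Pool.Agent.Cx.Oc Pool.Agent.Cx.Sp List

/-- two balanced strings with a common strip partition -/
def Strip (z : List ℕ × List ℕ) : Prop :=
  z.1.Perm z.2 ∧ ∃ P Q : List (List ℕ), P.flatten = z.1 ∧ Q.flatten = z.2 ∧
    (∀ B ∈ P, 2 ≤ B.length) ∧ (∀ B ∈ Q, 2 ≤ B.length) ∧ P.Perm Q

abbrev Pt := ℕ × ℕ × ℕ
abbrev Al := ℕ × Pt

def kp (p : Pt) : Pt :=
  if p.2.2 = 0 then (if p.2.1 = 0 then (1, p.1, 0) else (0, min p.1 (p.2.1 - 1), max p.1 (p.2.1 - 1)))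
  else if p.2.2 = 1 then (if p.2.1 = 0 then (2, p.1 / 3, 0) else (1, p.1, p.2.1)) else (1, p.1, p.2.1 + 1)
def cd (t : ℕ) (p : Pt) : ℕ := Nat.pair t (Nat.pair p.1 (Nat.pair p.2.1 p.2.2))
def lam (a : Al) : ℕ := if a.1 = 0 ∨ a.1 = 4 then cd 0 (kp a.2) else if a.1 = 1 ∨ a.1 = 7 then cd 1 (kp a.2)
  else if a.1 < 8 then cd 2 (kp a.2) else cd a.1 a.2
def rep (p : Pt) : Prop :=
  (p.2.2 = 0 ∧ (p.2.1 = 0 ∨ p.1 < p.2.1)) ∨ (p.2.2 = 1 ∧ p.2.1 = 0 ∧ p.1 % 3 = 0) ∨ p.2.2 = 2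
def sg (φ : F) (p : Pt) : Prop :=
  (p.2.2 = 1 ∧ 0 < p.2.1 ∧ cf φ p.1 (p.2.1 - 1)) ∨ (p.2.2 = 2 ∧ p.2.1 < 3 * φ.length)
instance : DecidablePred rep := fun _ => by unfold rep; infer_instance
instance (φ : F) : DecidablePred (sg φ) := fun _ => by unfold sg; infer_instance
def J (φ : F) (p : Pt) : List Al := if sg φ p then [(12, p)] else [(12, p), (13, p)]
def xS (p : Pt) : List Al := [(0, p), (1, p)]
def xT (p : Pt) : List Al := [(0, p), (2, p), (2, p), (1, p)]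
def eS (p : Pt) : List Al := (2, p) :: (3, p) ::
  if rep p then [(4, p), (5, p), (6, p), (7, p), (8, p), (9, p), (10, p), (11, p)] else []
def eT (p : Pt) : List Al :=
  if rep p then [(8, p), (9, p), (0, p), (1, p), (10, p), (11, p), (2, p), (2, p)] else []
def fu (φ : F) (x e : Pt → List Al) (u : ℕ × ℕ) : List Al :=
  J φ (u.1, u.2, 0) ++ x (u.1, u.2, 0) ++ J φ (u.1, u.2, 1) ++ x (u.1, u.2, 1) ++ J φ (u.1, u.2, 2) ++
    x (u.1, u.2, 2) ++ J φ (u.1, u.2, 3) ++ e (u.1, u.2, 0) ++ e (u.1, u.2, 1) ++ e (u.1, u.2, 2)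
def us (φ : F) : List (ℕ × ℕ) := range (3 * φ.length) ×ˢ range (3 * φ.length + 1)
def red (φ : F) : List ℕ × List ℕ :=
  (((us φ).flatMap (fu φ xS eS)).map lam, ((us φ).flatMap (fu φ xT eT)).map lam)

lemma red_pt : PT red := by
  have b0 : PT kp := by
    unfold kp
    repeat first | refine PP.ite (by fun_prop) ?_ ?_ | fun_prop
  have b1 : PT lam := by
    unfold lam cd
    repeat first | refine PP.ite (by fun_prop) ?_ ?_ | fun_prop
  have b2 : PT fun z : F × Pt => J z.1 z.2 := PP.ite (by unfold sg; fun_prop) (by fun_prop) (by fun_prop)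
  have b3 : PT eS := PT.cons (by fun_prop) (PT.cons (by fun_prop)
    (PP.ite (by unfold rep; fun_prop) (by fun_prop) (by fun_prop)))
  have b4 : PT eT := PP.ite (by unfold rep; fun_prop) (by fun_prop) (by fun_prop)
  unfold red fu xS xT us
  fun_prop

variable {φ : F}

lemma nd_us : (us φ).Nodup := nodup_range.product nodup_range

lemma mem_us {u : ℕ × ℕ} : u ∈ us φ ↔ u.1 < 3 * φ.length ∧ u.2 < 3 * φ.length + 1 := by
  obtain ⟨a, b⟩ := u; simp [us]

lemma lam1 {a : Al} {t : ℕ} {q : Pt} (h : lam a = cd t q) :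
    (t = 0 → (a.1 = 0 ∨ a.1 = 4) ∧ kp a.2 = q) ∧ (t = 1 → a.1 = 1 ∨ a.1 = 7) ∧ (8 ≤ t → a.1 = t) := by
  unfold lam at h
  split_ifs at h <;> simp only [cd, Nat.pair_eq_pair, Prod.ext_iff] at h ⊢ <;> omega

def R (u v : Al) : Prop :=
  (u.1 = 0 → v = (1, u.2)) ∧ (u.1 = 4 → v.1 = 5) ∧ (u.1 = 9 → v.1 = 10) ∧ (v.1 = 10 → u.1 = 9)

def tp : List (ℕ × ℕ) := [(12, 0), (13, 0)] ++ [(0, 0), (1, 0)] ++ [(12, 1), (13, 1)] ++ [(0, 1), (1, 1)] ++
  [(12, 2), (13, 2)] ++ [(0, 2), (1, 2)] ++ [(12, 3), (13, 3)] ++ (range' 2 10).map (·, 0) ++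
  (range' 2 10).map (·, 1) ++ (range' 2 10).map (·, 2)

lemma sub (u : ℕ × ℕ) : fu φ xS eS u <+ tp.map fun a => (a.1, u.1, u.2, a.2) := by
  have a : ∀ p, J φ p <+ [(12, p), (13, p)] := fun p => by unfold J; split_ifs <;> simp
  have b : ∀ p, eS p <+ (range' 2 10).map (·, p) := fun p => by
    unfold eS; split_ifs <;> simp [range']
  simp only [tp, fu, map_append, map_map]
  refine (((((((((a _).append (.refl _)).append (a _)).append (.refl _)).append (a _)).append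
    (.refl _)).append (a _)).append (b _)).append (b _)).append (b _)

lemma sS : ((us φ).flatMap (fu φ xS eS)).Nodup ∧ IsChain R ((us φ).flatMap (fu φ xS eS)) ∧
    ∀ p, (0, p) ∈ (us φ).flatMap (fu φ xS eS) → (p.1, p.2.1) ∈ us φ ∧ p.2.2 < 3 := by
  refine ⟨nodup_fm nd_us (fun a => (a.2.1, a.2.2.1)) (fun u _ => (sub u).nodup (Nodup.map ?_ (by decide)))
    fun u _ x h => ?_, chain_fm (fun u _ => ?_) fun u _ v _ x hx y hy => ?_, fun p h => ?_⟩
  · intro a b; simp +contextual [Prod.ext_iff]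
  · obtain ⟨a, -, rfl⟩ := mem_map.1 ((sub u).subset h); rfl
  · have a : ¬ sg φ (u.1, u.2, 0) := by simp [sg]
    have b : ¬ sg φ (u.1, u.2, 3) := by simp [sg]
    have c : rep (u.1, u.2, 2) := by simp [rep]
    simp only [fu, J, xS, eS, a, b, c, if_true, if_false]; split_ifs <;> simp [R]
  · have : eS (u.1, u.2, 2) = (eS (u.1, u.2, 2)).dropLast ++ [(11, u.1, u.2, 2)] := by simp [eS, rep]
    rw [fu, this, ← append_assoc, getLast?_concat] at hx
    obtain rfl := Option.some.inj hx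
    have : y = (12, v.1, v.2, 0) := by simpa [fu, J, sg, eq_comm] using hy
    simp [R, *]
  · obtain ⟨u, a, b⟩ := mem_flatMap.1 h
    obtain ⟨c, d, e⟩ := mem_map.1 ((sub u).subset b)
    have : ∀ c ∈ tp, c.1 = 0 → c.2 < 3 := by decide
    simp only [Prod.mk.injEq] at e
    exact e.2 ▸ ⟨a, this c d e.1⟩

lemma kpe {o j s a b c : ℕ} (h : kp (o, j, s) = (a, b, c)) (l : s < 3) :
    (s = 0 ∧ j = 0 ∧ a = 1 ∧ b = o ∧ c = 0) ∨ (s = 0 ∧ j ≠ 0 ∧ a = 0 ∧ b = min o (j - 1) ∧ c = max o (j - 1)) ∨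
    (s = 1 ∧ j = 0 ∧ a = 2 ∧ b = o / 3 ∧ c = 0) ∨ (s = 1 ∧ a = 1 ∧ b = o ∧ c = j) ∨
    (s = 2 ∧ a = 1 ∧ b = o ∧ c = j + 1) := by
  simp only [kp] at h; split_ifs at h <;> simp only [Prod.mk.injEq] at h <;> omega

lemma bw (h : Strip (red φ)) : Sat3 φ := by
  obtain ⟨-, P, Q, p0, q, p2, q2, pq⟩ := h
  obtain ⟨P, p, rfl⟩ := lift p0
  obtain ⟨nd, ch, mem⟩ := @sS φ
  rw [← p] at nd ch mem
  have du : ∀ {s t a b}, Du Q (cd s a) (cd t b) → ∃ x y, R x y ∧ lam x = cd s a ∧ lam y = cd t b :=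
    fun ⟨B, x, y⟩ =>
      let ⟨a, b, c, d⟩ := du_map ⟨B, pq.symm.subset x, y⟩
      ⟨a, b, rel2 ch c, d⟩
  have ex : ∀ p : Pt, (p.1, p.2.1) ∈ us φ → p.2.2 < 3 → rep p → ∃ u : Pt, (u.1, u.2.1) ∈ us φ ∧ u.2.2 < 3 ∧
      kp u = kp p ∧ xS u ∈ P := by
    rintro ⟨o, j, s⟩ a b c
    have i : eT (o, j, s) <:+: fu φ xT eT (o, j) := by
      unfold fu
      interval_cases s
      · exact ((infix_append_right).trans infix_append_left).trans infix_append_left
      · exact (infix_append_right).trans infix_append_left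
      · exact infix_append_right
    have := block q2 (l := cd 9 (o, j, s)) (x := cd 0 (kp (o, j, s))) (y := cd 1 (kp (o, j, s)))
      (r := cd 10 (o, j, s)) (q ▸ IsInfix.trans (by
        rw [eT, if_pos c]
        exact ⟨[lam (8, o, j, s)], [_, _, _], rfl⟩) ((i.trans (infix_fm a)).map lam))
    rcases this with e | e | e
    · obtain ⟨x, y, r, e1, e2⟩ := du e
      have := lam1 e1; have := lam1 e2; unfold R at r; omega
    · obtain ⟨x, y, r, e1, e2⟩ := du e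
      have := lam1 e1; have := lam1 e2; unfold R at r; omega
    obtain ⟨_ | ⟨x, _ | ⟨y, _ | _⟩⟩, e1, e2⟩ := mem_map.1 (pq.symm.subset e) <;> simp at e2
    have r : R x y := rel2 ch (infix_of_mem_flatten e1)
    have c1 := lam1 e2.1
    have c2 := lam1 e2.2
    have x0 : x.1 = 0 := by unfold R at r; omega
    obtain ⟨t, u⟩ := x
    obtain rfl : t = 0 := x0
    obtain rfl := r.1 rfl
    have := mem u (mem_flatten.2 ⟨_, e1, by simp⟩)
    exact ⟨u, this.1, this.2, (c1.1 rfl).2, e1⟩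
  have nb : ∀ o j s, (o, j) ∈ us φ → sg φ (o, j, s + 1) → xS (o, j, s) ∈ P → xS (o, j, s + 1) ∉ P :=
    fun o j s a b c d => by
      have : [(1, o, j, s), (12, o, j, s + 1), (0, o, j, s + 1)] <:+: fu φ xS eS (o, j) := by
        obtain rfl | rfl : s = 0 ∨ s = 1 := by unfold sg at b; simp at b; omega
        · exact ⟨J φ (o, j, 0) ++ [(0, o, j, 0)], _, by simp [fu, xS, J, b]; rfl⟩
        · exact ⟨J φ (o, j, 0) ++ xS (o, j, 0) ++ J φ (o, j, 1) ++ [(0, o, j, 1)], _,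
            by simp [fu, xS, J, b]; rfl⟩
      rcases cover (fun B h => by simpa using p2 _ (mem_map_of_mem h)) (p ▸ this.trans (infix_fm a))
        with e | e
      exacts [(cut nd c _).2 e, (cut nd d _).1 e]
  simp only [mem_us] at ex nb
  have : ∀ c < φ.length, ∃ o, o / 3 = c ∧ ∀ j ≤ 3 * φ.length, xS (o, j, 1) ∈ P := fun c hc => by
    obtain ⟨⟨o, j, s⟩, a, b, e, d⟩ := ex (3 * c, 0, 1) (by simp; omega) (by simp) (by simp [rep])
    obtain ⟨rfl, rfl, e0⟩ : j = 0 ∧ s = 1 ∧ o / 3 = c := by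
      have := kpe (e.trans (by simp [kp] : _ = (2, c, 0))) b; omega
    refine ⟨o, e0, fun j => ?_⟩
    induction j with
    | zero => exact fun _ => d
    | succ j ih =>
      intro l
      obtain ⟨⟨o', j', s⟩, a', b, e, d⟩ := ex (o, j, 2) (by simp at a ⊢; omega) (by simp) (by simp [rep])
      obtain ⟨rfl, ⟨rfl, rfl⟩ | ⟨rfl, rfl⟩⟩ : o' = o ∧ (j' = j ∧ s = 2 ∨ j' = j + 1 ∧ s = 1) := by
        have := kpe (e.trans (by simp [kp] : _ = (1, o, j + 1))) b; omega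
      · exact (nb _ _ 1 a' (Or.inr ⟨rfl, l⟩) (ih (by omega)) d).elim
      · exact d
  choose! o o1 o2 using this
  refine sat_of o1 fun c l d l' e => ?_
  have e1 := e.1
  have e2 := e.2.1
  obtain ⟨⟨a, j, s⟩, a', b, g, r⟩ := ex (min (o c) (o d), max (o c) (o d) + 1, 0) (by simp; omega) (by simp)
    (by simp [rep])
  obtain ⟨rfl, ⟨rfl, rfl⟩ | ⟨rfl, rfl⟩⟩ : s = 0 ∧ (a = o c ∧ j = o d + 1 ∨ a = o d ∧ j = o c + 1) := by
    have := kpe (g.trans (by simp [kp] : _ = (0, min (o c) (o d), max (o c) (o d)))) b; omega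
  · exact nb _ _ 0 a' (Or.inl ⟨rfl, by simp, e⟩) r (o2 c l _ e2)
  · exact nb _ _ 0 a' (Or.inl ⟨rfl, by simp, e.symm⟩) r (o2 d l' _ e1)

section
variable (φ) (rl : Pt → Prop) [DecidablePred rl]
def ox (t : ℕ) (p : Pt) : List Al := if rl p then [] else [(t, p)]
def mS (p : Pt) : List (List Al) := if rl p then [[(0, p), (1, p)]] else []
def mT (p : Pt) : List (List Al) :=
  if rl p then [[(0, p), (2, p)], [(2, p), (1, p)]] else [[(2, p), (2, p)]]
def cS (p : Pt) : List (List Al) := [(2, p), (3, p)] ::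
  if rep p then [[(4, p), (5, p)], [(6, p), (7, p)], [(8, p), (9, p)], [(10, p), (11, p)]] else []
def cT (p : Pt) : List (List Al) :=
  if rep p then [[(8, p), (9, p)], [(0, p), (1, p)], [(10, p), (11, p)], [(2, p), (2, p)]] else []
def bu (m c : Pt → List (List Al)) (u : ℕ × ℕ) : List (List Al) :=
  [J φ (u.1, u.2, 0) ++ ox rl 0 (u.1, u.2, 0)] ++ m (u.1, u.2, 0) ++
  [ox rl 1 (u.1, u.2, 0) ++ J φ (u.1, u.2, 1) ++ ox rl 0 (u.1, u.2, 1)] ++ m (u.1, u.2, 1) ++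
  [ox rl 1 (u.1, u.2, 1) ++ J φ (u.1, u.2, 2) ++ ox rl 0 (u.1, u.2, 2)] ++ m (u.1, u.2, 2) ++
  [ox rl 1 (u.1, u.2, 2) ++ J φ (u.1, u.2, 3)] ++ c (u.1, u.2, 0) ++ c (u.1, u.2, 1) ++ c (u.1, u.2, 2)
def cn (b : List ℕ) (L : List (List Al)) : ℕ := count b (L.map (map lam))
def wA (b : List ℕ) (k : Pt) : ℕ := count b [[cd 0 k, cd 1 k], [cd 2 k, cd 2 k]]
def wB (b : List ℕ) (k : Pt) : ℕ := count b [[cd 0 k, cd 2 k], [cd 2 k, cd 1 k]]

lemma c1 (b : List ℕ) (p : Pt) : cn b (mS rl p) + cn b (cS p) + (if rl p then wB b (kp p) else 0) +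
    (if rep p then wA b (kp p) else 0) = cn b (mT rl p) + cn b (cT p) + (if rl p then wA b (kp p) else 0) +
    (if rep p then wB b (kp p) else 0) := by
  by_cases x : rl p <;> by_cases y : rep p <;>
    simp only [cn, mS, mT, cS, cT, wA, wB, x, y, if_true, if_false, map_cons, map_nil, count_cons, count_nil,
      lam] <;> simp <;> omega

lemma fl (m c : Pt → List (List Al)) (x e : Pt → List Al)
    (h1 : ∀ p l, ox rl 0 p ++ ((m p).flatten ++ (ox rl 1 p ++ l)) = x p ++ l) (h2 : ∀ p, (c p).flatten = e p) :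
    (((us φ).flatMap (bu φ rl m c)).map (map lam)).flatten = ((us φ).flatMap (fu φ x e)).map lam := by
  rw [← map_flatten]
  congr 1
  induction us φ with
  | nil => rfl
  | cons u l ih => simp [ih, bu, fu, h1, h2]

lemma fw0 (h1 : ∀ o j s, sg φ (o, j, s + 1) → rl (o, j, s) → ¬ rl (o, j, s + 1))
    (h2 : ∀ G : Pt → ℕ, ∑ u ∈ (us φ).toFinset, ∑ s ∈ Finset.range 3,
        (if rl (u.1, u.2, s) then G (kp (u.1, u.2, s)) else 0) =
      ∑ u ∈ (us φ).toFinset, ∑ s ∈ Finset.range 3, if rep (u.1, u.2, s) then G (kp (u.1, u.2, s)) else 0) :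
    Strip (red φ) := by
  have e1 := fl φ rl (mS rl) cS xS eS (fun p l => by unfold ox mS xS; split_ifs <;> rfl)
    fun p => by unfold cS eS; split_ifs <;> rfl
  have e2 := fl φ rl (mT rl) cT xT eT (fun p l => by unfold ox mT xT; split_ifs <;> rfl)
    fun p => by unfold cT eT; split_ifs <;> rfl
  have pm : (((us φ).flatMap (bu φ rl (mS rl) cS)).map (map lam)).Perm
      (((us φ).flatMap (bu φ rl (mT rl) cT)).map (map lam)) := by
    refine perm_iff_count.2 fun b => ?_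
    simp only [map_flatMap, count_flatMap, ← List.sum_toFinset _ nd_us, Function.comp_def]
    have a1 := h2 (wA b)
    have a2 := h2 (wB b)
    refine (fun x y a a' c c' (p : a = a') (q : c = c') (r : x + c + a' = y + a + c') =>
      show x = y by omega)
      _ _ _ _ _ _ a1 a2 ?_
    simp only [← Finset.sum_add_distrib]
    refine Finset.sum_congr rfl fun u _ => ?_
    have := c1 rl b (u.1, u.2, 0)
    have := c1 rl b (u.1, u.2, 1)
    have := c1 rl b (u.1, u.2, 2)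
    simp only [bu, cn, map_append, count_append, Finset.sum_range_succ, Finset.sum_range_zero] at *
    omega
  have ln : ∀ B ∈ ((us φ).flatMap (bu φ rl (mS rl) cS)).map (map lam), 2 ≤ B.length := by
    simp only [forall_mem_map, length_map, mem_flatMap, forall_exists_index, and_imp]
    intro B u _
    have := h1 u.1 u.2 0
    have := h1 u.1 u.2 1
    have : ¬ sg φ (u.1, u.2, 0) := by simp [sg]
    have : ¬ sg φ (u.1, u.2, 3) := by simp [sg]
    have a : ∀ p, ∀ B ∈ mS rl p, 2 ≤ B.length := fun p => by unfold mS; split_ifs <;> simp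
    have b : ∀ p, ∀ B ∈ cS p, 2 ≤ B.length := fun p => by unfold cS; split_ifs <;> simp
    have lJ : ∀ p, (J φ p).length = if sg φ p then 1 else 2 := fun p => by unfold J; split_ifs <;> rfl
    have lo : ∀ t p, (ox rl t p).length = if rl p then 0 else 1 := fun t p => by
      unfold ox; split_ifs <;> rfl
    simp only [bu, mem_append, mem_singleton]
    rintro (((((((((rfl | h) | rfl) | h) | rfl) | h) | rfl) | h) | h) | h)
    any_goals first | exact a _ _ h | exact b _ _ h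
    all_goals simp only [length_append, lJ, lo]; clear e1 e2 pm h2 a b lJ lo; grind
  exact ⟨by have := pm.flatten; rwa [e1, e2] at this, _, _, e1, e2, ln, fun B h => ln B (pm.symm.subset h), pm⟩
end

lemma fw (h : Sat3 φ) : Strip (red φ) := by
  classical
  obtain ⟨o, o1, o2⟩ := of_sat h
  obtain ⟨ch, c1, c2, c3⟩ : ∃ ch : ℕ → Prop, (∀ a b, ch a → ch b → ¬ cf φ a b) ∧
      (∀ a b, ch a → ch b → a / 3 = b / 3 → a = b) ∧ ∀ c, ∃ a, a / 3 = c ∧ ch a :=
    ⟨fun a => a = o (a / 3), fun a b p q => p ▸ q ▸ o2 _ _, fun a b p q e => by rw [p, q, e],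
      fun c => ⟨o c, o1 c, by simp [o1]⟩⟩
  have sy : ∀ a b, cf φ a b ↔ cf φ b a := fun _ _ => ⟨cf.symm, cf.symm⟩
  refine fw0 φ (fun p => (p.2.2 = 0 ∧ (p.2.1 = 0 ∨ (¬ (ch p.1 ∧ cf φ p.1 (p.2.1 - 1)) ∧
    ((ch (p.2.1 - 1) ∧ cf φ p.1 (p.2.1 - 1)) ∨ p.1 < p.2.1)))) ∨ (p.2.2 = 1 ∧ ch p.1) ∨
    (p.2.2 = 2 ∧ (¬ ch p.1 ∨ p.2.1 = 3 * φ.length))) (fun a j s => ?_) fun G => ?_
  · simp only [sg]; grind
  rw [← Finset.sum_product', ← Finset.sum_product', ← Finset.sum_filter, ← Finset.sum_filter]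
  refine sum_cls (k := fun w : (ℕ × ℕ) × ℕ => kp (w.1.1, w.1.2, w.2)) ?_ ?_ ?_ ?_ G
  · rintro ⟨⟨a, j⟩, s⟩ p ⟨⟨b, i⟩, t⟩ q e
    have := c1 a b
    have := c2 a b
    have := sy a b
    simp [mem_us, kp] at p q e ⊢
    split_ifs at e <;> simp only [Prod.mk.injEq] at e <;> grind
  · rintro ⟨⟨a, j⟩, s⟩ p ⟨⟨b, i⟩, t⟩ q e
    simp [mem_us, kp, rep] at p q e ⊢
    split_ifs at e <;> simp only [Prod.mk.injEq] at e <;> omega
  · rintro ⟨⟨a, j⟩, s⟩ p
    simp [mem_us] at p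
    simp only [Finset.mem_filter, Finset.mem_product, mem_toFinset, mem_us, Finset.mem_range, rep, kp]
    obtain rfl | rfl | rfl : s = 0 ∨ s = 1 ∨ s = 2 := by omega
    · by_cases e : j = 0 ∨ a < j
      · exact ⟨((a, j), 0), by simp; omega, rfl⟩
      · exact ⟨((j - 1, a + 1), 0), by simp; omega, by simp [show j ≠ 0 by omega]; omega⟩
    · cases j with
      | zero => exact ⟨((3 * (a / 3), 0), 1), by simp; omega, by simp⟩
      | succ j => exact ⟨((a, j), 2), by simp; omega, by simp⟩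
    · exact ⟨((a, j), 2), by simp; omega, rfl⟩
  · rintro ⟨⟨a, j⟩, s⟩ p
    simp [mem_us, rep] at p
    simp only [Finset.mem_filter, Finset.mem_product, mem_toFinset, mem_us, Finset.mem_range, kp]
    obtain rfl | rfl | rfl : s = 0 ∨ s = 1 ∨ s = 2 := by omega
    · by_cases e : j ≠ 0 ∧ ch a ∧ cf φ a (j - 1)
      · have := c1 a (j - 1)
        have := sy a (j - 1)
        exact ⟨((j - 1, a + 1), 0), by simp; grind, by simp [e.1]; omega⟩
      · exact ⟨((a, j), 0), by simp; grind, rfl⟩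
    · obtain ⟨b, p, q⟩ := c3 (a / 3)
      exact ⟨((b, 0), 1), by simp [q]; omega, by simp [p, show j = 0 by omega]⟩
    · by_cases e : ch a ∧ j ≠ 3 * φ.length
      · exact ⟨((a, j + 1), 1), by simp [e.1]; omega, by simp⟩
      · exact ⟨((a, j), 2), by simp; grind, rfl⟩

theorem result : NPHard (Lang Strip) := (hard_sat3.red red_pt fun _ => ⟨fw, bw⟩).npHard

end Pool.Agent.Results.MP_cb2135_lc.NPHard
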